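import Mathlib

set_option autoImplicit false

namespace Pool.Agent.Furedi

open Finset

variable {V : Type*} [DecidableEq V]

/-- pairwise disjoint families of sets -/
def IsMatching (M : Finset (Finset V)) : Prop :=
  ∀ E ∈ M, ∀ F ∈ M, E ≠ F → Disjoint E F

/-- linear hypergraphs: two distinct edges share at most one vertex -/
def IsLinear (H : Finset (Finset V)) : Prop :=
  ∀ E ∈ H, ∀ F ∈ H, E ≠ F → (E ∩ F).card ≤ 1

lemma IsMatching.mono {M M' : Finset (Finset V)} (h : IsMatching M) (hs : M' ⊆ M) :
    IsMatching M' := fun E hE F hF hEF => h E (hs hE) F (hs hF) hEF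

/-- the members of `M` which meet `A` -/
def blk (M : Finset (Finset V)) (A : Finset V) : Finset (Finset V) :=
  M.filter fun B => ¬ Disjoint B A

lemma mem_blk {M : Finset (Finset V)} {A B : Finset V} :
    B ∈ blk M A ↔ B ∈ M ∧ ¬ Disjoint B A := by simp [blk]

lemma blk_subset (M : Finset (Finset V)) (A : Finset V) : blk M A ⊆ M := filter_subset _ _

/-- a matching has at most `|A|` members meeting `A` -/
lemma card_blk_le {M : Finset (Finset V)} (hM : IsMatching M) (A : Finset V) :
    (blk M A).card ≤ A.card := by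
  have hd : ((blk M A : Finset (Finset V)) : Set (Finset V)).PairwiseDisjoint
      (fun B => B ∩ A) := by
    intro B hB C hC hBC
    have hB' := (mem_blk.1 (mem_coe.1 hB)).1
    have hC' := (mem_blk.1 (mem_coe.1 hC)).1
    exact (hM B hB' C hC' hBC).mono inter_subset_left inter_subset_left
  calc (blk M A).card = ∑ B ∈ blk M A, 1 := by simp
    _ ≤ ∑ B ∈ blk M A, (B ∩ A).card := by
        refine sum_le_sum fun B hB => ?_
        have := (mem_blk.1 hB).2
        rw [disjoint_iff_inter_eq_empty, ← Ne, ← nonempty_iff_ne_empty] at this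
        exact this.card_pos
    _ = ((blk M A).biUnion fun B => B ∩ A).card := (card_biUnion hd).symm
    _ ≤ A.card := card_le_card (biUnion_subset.2 fun B _ => inter_subset_right)

/-- exchanging the blockers of `A` for `A` -/
lemma isMatching_exch {M : Finset (Finset V)} (hM : IsMatching M) (A : Finset V) :
    IsMatching (insert A (M \ blk M A)) := by
  have key : ∀ E ∈ M \ blk M A, Disjoint E A := by
    intro E hE
    rw [mem_sdiff, mem_blk] at hE
    by_contra h
    exact hE.2 ⟨hE.1, h⟩
  intro E hE F hF hEF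
  rw [mem_insert] at hE hF
  rcases hE with rfl | hE <;> rcases hF with rfl | hF
  · exact absurd rfl hEF
  · exact (key F hF).symm
  · exact key E hE
  · exact hM E (mem_sdiff.1 hE).1 F (mem_sdiff.1 hF).1 hEF

/-- an intersecting linear `k`-uniform family containing `A` has at most `k(k-1)` further members
unless it is a star -/
lemma star_or_small {k : ℕ} {A : Finset V} (hA : A.card = k) (P : Finset (Finset V))
    (hAP : A ∉ P) (hk : ∀ B ∈ P, B.card = k)
    (hlin : IsLinear (insert A P))
    (hint : ∀ E ∈ insert A P, ∀ F ∈ insert A P, E ≠ F → ¬ Disjoint E F) :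
    P.card ≤ k * (k - 1) ∨ ∃ x ∈ A, ∀ B ∈ P, x ∈ B := by
  classical
  by_contra hcon
  rw [not_or] at hcon
  obtain ⟨h1, h2⟩ := hcon
  have hcov : P ⊆ A.biUnion fun x => P.filter fun B => x ∈ B := by
    intro B hB
    have hne : A ≠ B := fun h => hAP (h ▸ hB)
    have := hint A (mem_insert_self _ _) B (mem_insert_of_mem hB) hne
    rw [not_disjoint_iff] at this
    obtain ⟨x, hxA, hxB⟩ := this
    exact mem_biUnion.2 ⟨x, hxA, mem_filter.2 ⟨hB, hxB⟩⟩
  have hx : ∃ x ∈ A, k ≤ (P.filter fun B => x ∈ B).card := by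
    by_contra hno
    push Not at hno
    apply h1
    calc P.card ≤ (A.biUnion fun x => P.filter fun B => x ∈ B).card := card_le_card hcov
      _ ≤ ∑ x ∈ A, (P.filter fun B => x ∈ B).card := card_biUnion_le
      _ ≤ ∑ x ∈ A, (k - 1) := sum_le_sum fun x hx => by have := hno x hx; omega
      _ = k * (k - 1) := by rw [sum_const, hA, smul_eq_mul]
  obtain ⟨x, hxA, hxk⟩ := hx
  apply h2
  refine ⟨x, hxA, fun B hB => ?_⟩
  by_contra hxB
  set Q := insert A (P.filter fun B => x ∈ B) with hQ
  have hQs : ∀ F ∈ Q, F ∈ insert A P ∧ x ∈ F := by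
    intro F hF
    rw [hQ, mem_insert, mem_filter] at hF
    rcases hF with rfl | ⟨h, h'⟩
    · exact ⟨mem_insert_self _ _, hxA⟩
    · exact ⟨mem_insert_of_mem h, h'⟩
  have hQc : k + 1 ≤ Q.card := by
    rw [hQ, card_insert_of_notMem (fun h => hAP (mem_filter.1 h).1)]
    omega
  have hd : ((Q : Finset (Finset V)) : Set (Finset V)).PairwiseDisjoint (fun F => F ∩ B) := by
    intro F hF G hG hFG
    rw [Function.onFun, disjoint_left]
    intro y hy1 hy2
    rw [mem_inter] at hy1 hy2
    have hxy : x ≠ y := fun h => hxB (h ▸ hy1.2)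
    have h3 := hlin F (hQs F (mem_coe.1 hF)).1 G (hQs G (mem_coe.1 hG)).1 hFG
    have h4 : ({x, y} : Finset V) ⊆ F ∩ G := by
      intro z hz
      rw [mem_insert, mem_singleton] at hz
      rcases hz with rfl | rfl
      · exact mem_inter.2 ⟨(hQs F (mem_coe.1 hF)).2, (hQs G (mem_coe.1 hG)).2⟩
      · exact mem_inter.2 ⟨hy1.1, hy2.1⟩
    have h5 := card_le_card h4
    rw [card_pair hxy] at h5
    omega
  have : Q.card ≤ B.card := by
    calc Q.card = ∑ F ∈ Q, 1 := by simp
      _ ≤ ∑ F ∈ Q, (F ∩ B).card := by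
          refine sum_le_sum fun F hF => ?_
          have hne : F ≠ B := fun h => hxB (h ▸ (hQs F hF).2)
          have := hint F (hQs F hF).1 B (mem_insert_of_mem hB) hne
          rw [disjoint_iff_inter_eq_empty, ← Ne, ← nonempty_iff_ne_empty] at this
          exact this.card_pos
      _ = (Q.biUnion fun F => F ∩ B).card := (card_biUnion hd).symm
      _ ≤ B.card := card_le_card (biUnion_subset.2 fun F _ => inter_subset_right)
  have := hk B hB
  omega

end Pool.Agent.Furedi
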