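import Mathlib
import Pool.Agent.Furedi.Comb

set_option autoImplicit false

namespace Pool.Agent.Furedi

open Finset

variable {V : Type*} [DecidableEq V]

/-- the weight of a family: each member `E` counts `R ^ |E|` -/
def rho (R : ℕ) (M : Finset (Finset V)) : ℕ := ∑ E ∈ M, R ^ E.card

open Classical in
/-- the matchings of `H` of largest weight -/
noncomputable def optM (R : ℕ) (H : Finset (Finset V)) : Finset (Finset (Finset V)) :=
  H.powerset.filter fun M => IsMatching M ∧ ∀ M' ⊆ H, IsMatching M' → rho R M' ≤ rho R M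

lemma mem_optM {R : ℕ} {H M : Finset (Finset V)} :
    M ∈ optM R H ↔ M ⊆ H ∧ IsMatching M ∧ ∀ M' ⊆ H, IsMatching M' → rho R M' ≤ rho R M := by
  simp [optM]

lemma optM_nonempty (R : ℕ) (H : Finset (Finset V)) : (optM R H).Nonempty := by
  classical
  have hne : (H.powerset.filter fun M => IsMatching M).Nonempty :=
    ⟨∅, by
      rw [mem_filter, mem_powerset]
      exact ⟨empty_subset _, fun E hE => absurd hE (notMem_empty _)⟩⟩
  obtain ⟨M, hM, hmax⟩ := exists_max_image _ (rho R) hne
  refine ⟨M, mem_optM.2 ?_⟩
  rw [mem_filter, mem_powerset] at hM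
  refine ⟨hM.1, hM.2, fun M' h1 h2 => hmax M' ?_⟩
  rw [mem_filter, mem_powerset]
  exact ⟨h1, h2⟩

lemma nonempty_of_mem_optM {R : ℕ} (hR : 0 < R) {H M : Finset (Finset V)} (hH : H.Nonempty)
    (hM : M ∈ optM R H) : M.Nonempty := by
  rw [mem_optM] at hM
  by_contra h
  rw [not_nonempty_iff_eq_empty] at h
  obtain ⟨E, hE⟩ := hH
  have h1 : IsMatching ({E} : Finset (Finset V)) := by
    intro A hA B hB hAB
    rw [mem_singleton] at hA hB
    exact absurd (hA.trans hB.symm) hAB
  have := hM.2.2 {E} (singleton_subset_iff.2 hE) h1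
  rw [h] at this
  simp only [rho, sum_singleton, sum_empty] at this
  have h2 : 0 < R ^ E.card := Nat.pow_pos hR
  omega

lemma rho_exch {R : ℕ} {M : Finset (Finset V)} {A : Finset V} (hA : A ∉ M) :
    rho R (insert A (M \ blk M A)) + rho R (blk M A) = R ^ A.card + rho R M := by
  have h1 : A ∉ M \ blk M A := fun h => hA (mem_sdiff.1 h).1
  unfold rho
  rw [sum_insert h1, add_assoc, sum_sdiff (blk_subset M A)]

/-- an edge outside an optimal matching is met by a member which is at least as large -/
lemma blocked {R : ℕ} {H M : Finset (Finset V)} {A : Finset V} (hR : A.card < R)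
    (hM : M ∈ optM R H) (hA : A ∈ H) (hAM : A ∉ M) (hne : A.Nonempty) :
    ∃ B ∈ blk M A, A.card ≤ B.card := by
  rw [mem_optM] at hM
  have h1 : insert A (M \ blk M A) ⊆ H :=
    insert_subset hA ((sdiff_subset).trans hM.1)
  have h2 := hM.2.2 _ h1 (isMatching_exch hM.2.1 A)
  have h3 := rho_exch (R := R) hAM
  by_contra hno
  push Not at hno
  have hpos : 0 < A.card := hne.card_pos
  have h4 : rho R (blk M A) ≤ A.card * R ^ (A.card - 1) := by
    calc rho R (blk M A) ≤ ∑ B ∈ blk M A, R ^ (A.card - 1) := by
          refine sum_le_sum fun B hB => Nat.pow_le_pow_right (by omega) ?_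
          have := hno B hB
          omega
      _ = (blk M A).card * R ^ (A.card - 1) := by rw [sum_const, smul_eq_mul]
      _ ≤ A.card * R ^ (A.card - 1) := Nat.mul_le_mul_right _ (card_blk_le hM.2.1 A)
  have h5 : A.card * R ^ (A.card - 1) < R * R ^ (A.card - 1) :=
    Nat.mul_lt_mul_of_pos_right hR (Nat.pow_pos (by omega))
  have h6 : R * R ^ (A.card - 1) = R ^ A.card := by
    rw [← Nat.pow_succ', Nat.succ_eq_add_one, Nat.sub_add_cancel hpos]
  omega

/-- `A` is outside `M` and met by exactly one member, which has the same size as `A` -/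
def Swp (M : Finset (Finset V)) (A : Finset V) : Prop :=
  A ∉ M ∧ ∃ B, B.card = A.card ∧ blk M A = {B}

/-- total size minus one of the members which meet `A` -/
def cons (M : Finset (Finset V)) (A : Finset V) : ℕ :=
  ∑ B ∈ (blk M A).erase A, (B.card - 1)

lemma cons_ge {R : ℕ} {H M : Finset (Finset V)} {A : Finset V} (hR : A.card < R)
    (hM : M ∈ optM R H) (hA : A ∈ H) (hAM : A ∉ M) (hne : A.Nonempty)
    (h2 : ∀ B ∈ H, ¬ Disjoint B A → 2 ≤ B.card) (hns : ¬ Swp M A) {m : ℕ}
    (hm : m = A.card ∨ (m = A.card + 1 ∧ ∀ B ∈ H, ¬ Disjoint B A →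
      B.card ≠ 2 ∧ B.card ≠ A.card + 1)) :
    m ≤ cons M A := by
  obtain ⟨B, hB, hBA⟩ := blocked hR hM hA hAM hne
  have hMH := (mem_optM.1 hM).1
  have hAb : (blk M A).erase A = blk M A := by
    rw [erase_eq_self]
    exact fun h => hAM (blk_subset _ _ h)
  have hH : ∀ C ∈ blk M A, C ∈ H ∧ ¬ Disjoint C A := fun C hC =>
    ⟨hMH (mem_blk.1 hC).1, (mem_blk.1 hC).2⟩
  unfold cons
  rw [hAb]
  by_cases hlt : A.card < B.card
  · have h3 : B.card - 1 ≤ ∑ B ∈ blk M A, (B.card - 1) :=
      single_le_sum (f := fun B : Finset V => B.card - 1) (fun _ _ => Nat.zero_le _) hB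
    rcases hm with hm | ⟨hm, hm'⟩
    · omega
    · have := (hm' B (hH B hB).1 (hH B hB).2).2
      omega
  · have heq : B.card = A.card := by omega
    have hex : ∃ C ∈ blk M A, C ≠ B := by
      by_contra hno
      push Not at hno
      apply hns
      refine ⟨hAM, B, heq, ?_⟩
      ext C
      rw [mem_singleton]
      exact ⟨fun h => hno C h, fun h => h ▸ hB⟩
    obtain ⟨C, hC, hCB⟩ := hex
    have h3 : (B.card - 1) + (C.card - 1) ≤ ∑ B ∈ blk M A, (B.card - 1) := by
      have hsub : ({B, C} : Finset (Finset V)) ⊆ blk M A := by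
        intro z hz
        rw [mem_insert, mem_singleton] at hz
        rcases hz with rfl | rfl <;> assumption
      calc (B.card - 1) + (C.card - 1) = ∑ B ∈ ({B, C} : Finset (Finset V)), (B.card - 1) := by
            rw [sum_pair hCB.symm]
        _ ≤ _ := sum_le_sum_of_subset hsub
    have h4 := h2 C (hH C hC).1 (hH C hC).2
    have h5 : 0 < A.card := hne.card_pos
    rcases hm with hm | ⟨hm, hm'⟩
    · omega
    · have := (hm' C (hH C hC).1 (hH C hC).2).1
      omega

lemma cons_swp {M : Finset (Finset V)} {A : Finset V} (h : Swp M A) :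
    cons M A = A.card - 1 := by
  obtain ⟨hAM, B, hB, hb⟩ := h
  have hAb : (blk M A).erase A = blk M A := by
    rw [erase_eq_self]
    exact fun h => hAM (blk_subset _ _ h)
  unfold cons
  rw [hAb, hb, sum_singleton, hB]

/-- the number of optimal matchings in which `A` is blocked by one edge of the same size -/
lemma card_swp_le {R : ℕ} (hR : 0 < R) {H : Finset (Finset V)} {A : Finset V} (hA : A ∈ H)
    (hne : A.Nonempty) (hlin : IsLinear H) {C : ℕ} (hC1 : A.card * (A.card - 1) ≤ C)
    (hC2 : ∀ x ∈ A, (H.filter fun B => B ≠ A ∧ x ∈ B ∧ B.card = A.card).card ≤ C)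
    [DecidablePred fun M => Swp M A] :
    ((optM R H).filter fun M => Swp M A).card ≤
      C * ((optM R H).filter fun M => A ∈ M).card := by
  classical
  apply card_le_mul_card_image_of_maps_to (f := fun M => insert A (M \ blk M A))
  · intro M hM
    rw [mem_filter] at hM
    obtain ⟨hM, hAM, B, hB, hb⟩ := hM
    have hM' := mem_optM.1 hM
    rw [mem_filter]
    refine ⟨mem_optM.2 ⟨insert_subset hA (sdiff_subset.trans hM'.1),
      isMatching_exch hM'.2.1 A, fun M' h1 h2 => (hM'.2.2 M' h1 h2).trans ?_⟩, mem_insert_self _ _⟩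
    have h3 := rho_exch (R := R) hAM
    rw [hb] at h3
    have h4 : rho R ({B} : Finset (Finset V)) = R ^ A.card := by
      rw [rho, sum_singleton, hB]
    rw [hb]
    omega
  · intro M' hM'
    rw [mem_filter] at hM'
    obtain ⟨hM', hAM'⟩ := hM'
    have hopt := mem_optM.1 hM'
    set P := H.filter fun B => B ≠ A ∧ B.card = A.card ∧ ¬ Disjoint B A ∧
      ∀ E ∈ M'.erase A, Disjoint B E with hP
    have hsub : (((optM R H).filter fun M => Swp M A).filter
        fun M => insert A (M \ blk M A) = M') ⊆ P.image fun B => insert B (M'.erase A) := by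
      intro M hM
      rw [mem_filter, mem_filter] at hM
      obtain ⟨⟨hM, hAM, B, hB, hb⟩, hMM'⟩ := hM
      have hMo := mem_optM.1 hM
      have hBb : B ∈ blk M A := by rw [hb]; exact mem_singleton_self _
      have hBM := (mem_blk.1 hBb).1
      have hBne : B ≠ A := fun h => hAM (h ▸ hBM)
      rw [hb] at hMM'
      have he : M'.erase A = M.erase B := by
        rw [← hMM', erase_insert (fun h => hAM (mem_sdiff.1 h).1), sdiff_singleton_eq_erase]
      rw [mem_image]
      refine ⟨B, ?_, ?_⟩
      · rw [hP, mem_filter]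
        refine ⟨hMo.1 hBM, hBne, hB, (mem_blk.1 hBb).2, fun E hE => ?_⟩
        rw [he, mem_erase] at hE
        exact hMo.2.1 B hBM E hE.2 hE.1.symm
      · rw [he, insert_erase hBM]
    refine (card_le_card hsub).trans (card_image_le.trans ?_)
    have hAP : A ∉ P := fun h => (mem_filter.1 h).2.1 rfl
    have hPH : insert A P ⊆ H := insert_subset hA (filter_subset _ _)
    have hpos : 0 < A.card := hne.card_pos
    have hint : ∀ E ∈ insert A P, ∀ F ∈ insert A P, E ≠ F → ¬ Disjoint E F := by
      intro E hE F hF hEF
      rw [mem_insert] at hE hF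
      rcases hE with rfl | hE
      · rcases hF with rfl | hF
        · exact absurd rfl hEF
        · exact fun h => (mem_filter.1 hF).2.2.2.1 h.symm
      · rcases hF with rfl | hF
        · exact (mem_filter.1 hE).2.2.2.1
        · intro hdis
          obtain ⟨hEH, hEA, hEc, hEd, hEm⟩ := mem_filter.1 hE
          obtain ⟨hFH, hFA, hFc, hFd, hFm⟩ := mem_filter.1 hF
          have hE0 : E.Nonempty := card_pos.1 (by omega)
          have hF0 : F.Nonempty := card_pos.1 (by omega)
          have hE1 : E ∉ M'.erase A := fun h =>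
            hE0.ne_empty (disjoint_self_iff_empty E |>.1 (hEm E h))
          have hF1 : F ∉ M'.erase A := fun h =>
            hF0.ne_empty (disjoint_self_iff_empty F |>.1 (hFm F h))
          have hm : IsMatching (insert E (insert F (M'.erase A))) := by
            have hme := hopt.2.1.mono (erase_subset A M')
            intro X hX Y hY hXY
            rw [mem_insert, mem_insert] at hX hY
            rcases hX with rfl | rfl | hX <;> rcases hY with rfl | rfl | hY
            · exact absurd rfl hXY
            · exact hdis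
            · exact hEm Y hY
            · exact hdis.symm
            · exact absurd rfl hXY
            · exact hFm Y hY
            · exact (hEm X hX).symm
            · exact (hFm X hX).symm
            · exact hme X hX Y hY hXY
          have hs : insert E (insert F (M'.erase A)) ⊆ H :=
            insert_subset hEH (insert_subset hFH ((erase_subset _ _).trans hopt.1))
          have h1 := hopt.2.2 _ hs hm
          have h2 : rho R M' = R ^ A.card + rho R (M'.erase A) := by
            unfold rho
            exact (add_sum_erase M' (fun E => R ^ E.card) hAM').symm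
          have h3 : rho R (insert E (insert F (M'.erase A))) =
              R ^ A.card + (R ^ A.card + rho R (M'.erase A)) := by
            unfold rho
            rw [sum_insert, sum_insert hF1, hEc, hFc]
            rw [mem_insert]
            rintro (h | h)
            · exact hEF h
            · exact hE1 h
          have h4 : 0 < R ^ A.card := Nat.pow_pos hR
          omega
    rcases star_or_small rfl P hAP (fun B hB => (mem_filter.1 hB).2.2.1)
      (fun E hE F hF => hlin E (hPH hE) F (hPH hF)) hint with h | ⟨x, hxA, hx⟩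
    · exact h.trans hC1
    · refine le_trans (card_le_card ?_) (hC2 x hxA)
      intro B hB
      have hB' := mem_filter.1 hB
      exact mem_filter.2 ⟨hB'.1, hB'.2.1, hx B hB, hB'.2.2.1⟩

end Pool.Agent.Furedi
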