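import Mathlib
import Pool.Agent.Furedi.Opt

set_option autoImplicit false

namespace Pool.Agent.Furedi

open Finset

variable {V : Type*} [DecidableEq V]

/-- the edges of `H` other than `A` which meet `A` -/
def nbh (H : Finset (Finset V)) (A : Finset V) : Finset (Finset V) :=
  H.filter fun B => B ≠ A ∧ ¬ Disjoint B A

/-- the number of optimal matchings containing `B` -/
noncomputable def cnt (R : ℕ) (H : Finset (Finset V)) (B : Finset V) : ℕ :=
  ((optM R H).filter fun M => B ∈ M).card

lemma sum_cons {R : ℕ} {H : Finset (Finset V)} (A : Finset V) :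
    ∑ M ∈ optM R H, cons M A = ∑ B ∈ nbh H A, (B.card - 1) * cnt R H B := by
  classical
  unfold cons cnt
  rw [sum_comm' (t' := nbh H A) (s' := fun B => (optM R H).filter fun M => B ∈ M)]
  · refine sum_congr rfl fun B _ => ?_
    rw [sum_const, smul_eq_mul, mul_comm]
  · intro M B
    simp only [nbh, mem_filter, mem_erase, mem_blk]
    constructor
    · rintro ⟨hM, hBA, hBM, hd⟩
      exact ⟨⟨hM, hBM⟩, (mem_optM.1 hM).1 hBM, hBA, hd⟩
    · rintro ⟨⟨hM, hBM⟩, _, hBA, hd⟩
      exact ⟨hM, hBA, hBM, hd⟩

lemma local_ineq {R : ℕ} {H : Finset (Finset V)} {A : Finset V} (hR : A.card < R) (hA : A ∈ H)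
    (hlin : IsLinear H) (h2 : ∀ E ∈ H, 2 ≤ E.card) {m C J : ℕ} (hJ : m + 1 = A.card + J)
    (hm : m = A.card ∨ (m = A.card + 1 ∧ ∀ B ∈ H, ¬ Disjoint B A →
      B.card ≠ 2 ∧ B.card ≠ A.card + 1))
    (hC1 : A.card * (A.card - 1) ≤ C)
    (hC2 : ∀ x ∈ A, (H.filter fun B => B ≠ A ∧ x ∈ B ∧ B.card = A.card).card ≤ C) :
    m * (optM R H).card ≤
      ∑ B ∈ nbh H A, (B.card - 1) * cnt R H B + (m + J * C) * cnt R H A := by
  classical
  have hne : A.Nonempty := card_pos.1 (by have := h2 A hA; omega)
  have hpt : ∀ M ∈ optM R H, m ≤ cons M A + J * (if Swp M A then 1 else 0) +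
      m * (if A ∈ M then 1 else 0) := by
    intro M hM
    by_cases hAM : A ∈ M
    · simp [hAM]
    · by_cases hs : Swp M A
      · have := cons_swp hs
        have := h2 A hA
        simp only [hs, if_true, hAM, if_false]
        omega
      · have := cons_ge hR hM hA hAM hne (fun B hB _ => h2 B hB) hs hm
        simp only [hs, if_false, hAM]
        omega
  have h3 := sum_le_sum hpt
  rw [sum_const, smul_eq_mul, sum_add_distrib, sum_add_distrib, ← mul_sum, ← mul_sum,
    sum_cons, ← card_filter, ← card_filter] at h3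
  have h4 := card_swp_le (R := R) (by omega) hA hne hlin hC1 hC2
  have h5 : ((optM R H).filter fun M => A ∈ M).card = cnt R H A := rfl
  rw [h5] at h3 h4
  calc m * (optM R H).card = (optM R H).card * m := mul_comm _ _
    _ ≤ _ := h3
    _ ≤ ∑ B ∈ nbh H A, (B.card - 1) * cnt R H B + J * (C * cnt R H A) + m * cnt R H A := by
        gcongr
    _ = _ := by ring

/-- The fractional colouring process in dual form: if every edge with positive demand satisfies
the local bound `L`, then the weighted demand is at most `L` times the largest weight of a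
matching. -/
theorem process [Fintype V] {H : Finset (Finset V)} (hlin : IsLinear H)
    (h2 : ∀ E ∈ H, 2 ≤ E.card) (m C J : Finset V → ℕ)
    (hJ : ∀ A ∈ H, m A + 1 = A.card + J A)
    (hm : ∀ A ∈ H, m A = A.card ∨ (m A = A.card + 1 ∧ ∀ B ∈ H, ¬ Disjoint B A →
      B.card ≠ 2 ∧ B.card ≠ A.card + 1))
    (hC1 : ∀ A ∈ H, A.card * (A.card - 1) ≤ C A)
    (hC2 : ∀ A ∈ H, ∀ x ∈ A,
      (H.filter fun B => B ≠ A ∧ x ∈ B ∧ B.card = A.card).card ≤ C A)
    (w : Finset V → ℝ) (W : ℝ) (hW : ∀ M ⊆ H, IsMatching M → ∑ E ∈ M, w E ≤ W) :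
    ∀ (n : ℕ) (d : Finset V → ℝ) (L : ℝ), (H.filter fun E => 0 < d E).card ≤ n →
      (∀ E, 0 ≤ d E) → 0 ≤ L →
      (∀ A ∈ H, 0 < d A → ∑ B ∈ nbh H A, ((B.card : ℝ) - 1) * d B +
        ((m A : ℝ) + J A * C A) * d A ≤ m A * L) →
      ∑ E ∈ H, w E * d E ≤ L * W := by
  classical
  intro n
  have hW0 : 0 ≤ W := by
    have := hW ∅ (empty_subset _) (fun E hE => absurd hE (notMem_empty _))
    simpa using this
  induction n with
  | zero =>
    intro d L hn hd hL hloc
    have hemp : (H.filter fun E => 0 < d E) = ∅ := card_eq_zero.1 (by omega)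
    have : ∑ E ∈ H, w E * d E = 0 := by
      refine sum_eq_zero fun E hE => ?_
      have h0 : ¬ 0 < d E := fun h => by
        have : E ∈ (H.filter fun E => 0 < d E) := mem_filter.2 ⟨hE, h⟩
        rw [hemp] at this
        exact notMem_empty _ this
      have : d E = 0 := le_antisymm (not_lt.1 h0) (hd E)
      rw [this, mul_zero]
    rw [this]
    positivity
  | succ n ih =>
    intro d L hn hd hL hloc
    by_cases hemp : (H.filter fun E => 0 < d E) = ∅
    · exact ih d L (by rw [hemp]; simp) hd hL hloc
    set H' := H.filter fun E => 0 < d E with hH'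
    have hH'ne : H'.Nonempty := nonempty_iff_ne_empty.2 hemp
    have hsub : H' ⊆ H := filter_subset _ _
    set R := Fintype.card V + 1 with hRdef
    have hRA : ∀ A : Finset V, A.card < R := fun A => by
      have := card_le_univ A
      omega
    set N : ℝ := ((optM R H').card : ℝ) with hN
    have hNpos : 0 < N := by
      have := (optM_nonempty R H').card_pos
      rw [hN]
      exact_mod_cast this
    set p : Finset V → ℝ := fun E => (cnt R H' E : ℝ) / N with hp
    have hp0 : ∀ E, 0 ≤ p E := fun E => by positivity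
    have hcntH : ∀ E, 0 < cnt R H' E → E ∈ H' := by
      intro E hE
      obtain ⟨M, hM⟩ := card_pos.1 hE
      rw [mem_filter] at hM
      exact (mem_optM.1 hM.1).1 hM.2
    have hpH : ∀ E, E ∉ H' → p E = 0 := by
      intro E hE
      have : cnt R H' E = 0 := by
        by_contra h
        exact hE (hcntH E (Nat.pos_of_ne_zero h))
      rw [hp]
      simp [this]
    -- the local inequality
    have hlocp : ∀ A ∈ H', (m A : ℝ) ≤ ∑ B ∈ nbh H A, ((B.card : ℝ) - 1) * p B +
        ((m A : ℝ) + J A * C A) * p A := by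
      intro A hA
      have hAH := hsub hA
      have h3 := local_ineq (R := R) (H := H') (A := A) (hRA A) hA
        (fun E hE F hF => hlin E (hsub hE) F (hsub hF)) (fun E hE => h2 E (hsub hE))
        (hJ A hAH) ((hm A hAH).imp id fun h => ⟨h.1, fun B hB => h.2 B (hsub hB)⟩)
        (hC1 A hAH) (fun x hx => (card_le_card (filter_subset_filter _ hsub)).trans
          (hC2 A hAH x hx))
      have h4 : (m A : ℝ) * N ≤ ∑ B ∈ nbh H' A, ((B.card : ℝ) - 1) * cnt R H' B +
          ((m A : ℝ) + J A * C A) * cnt R H' A := by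
        have h5 : ((m A * (optM R H').card : ℕ) : ℝ) ≤
            ((∑ B ∈ nbh H' A, (B.card - 1) * cnt R H' B +
              (m A + J A * C A) * cnt R H' A : ℕ) : ℝ) := by exact_mod_cast h3
        push_cast at h5
        rw [hN]
        refine h5.trans_eq ?_
        congr 1
        refine sum_congr rfl fun B hB => ?_
        have : 2 ≤ B.card := h2 B (hsub (mem_filter.1 hB).1)
        rw [Nat.cast_sub (by omega), Nat.cast_one]
      have h6 : ∑ B ∈ nbh H A, ((B.card : ℝ) - 1) * p B =
          ∑ B ∈ nbh H' A, ((B.card : ℝ) - 1) * p B := by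
        symm
        apply sum_subset (filter_subset_filter _ hsub)
        intro B hB hB'
        have : B ∉ H' := fun h => hB' (mem_filter.2 ⟨h, (mem_filter.1 hB).2⟩)
        rw [hpH B this, mul_zero]
      rw [h6]
      have h7 : ∑ B ∈ nbh H' A, ((B.card : ℝ) - 1) * p B +
          ((m A : ℝ) + J A * C A) * p A =
          (∑ B ∈ nbh H' A, ((B.card : ℝ) - 1) * cnt R H' B +
          ((m A : ℝ) + J A * C A) * cnt R H' A) / N := by
        rw [hp, add_div, sum_div]
        congr 1
        · refine sum_congr rfl fun B _ => ?_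
          rw [mul_div_assoc]
        · rw [mul_div_assoc]
      rw [h7, le_div_iff₀ hNpos]
      exact h4
    -- the length of the step
    set S := H'.filter fun E => 0 < cnt R H' E with hS
    have hSne : S.Nonempty := by
      obtain ⟨M, hM⟩ := optM_nonempty R H'
      obtain ⟨E, hE⟩ := nonempty_of_mem_optM (by omega) hH'ne hM
      refine ⟨E, mem_filter.2 ⟨(mem_optM.1 hM).1 hE, ?_⟩⟩
      exact card_pos.2 ⟨M, mem_filter.2 ⟨hM, hE⟩⟩
    obtain ⟨E0, hE0, hmin⟩ := exists_min_image S (fun E => d E / p E) hSne
    obtain ⟨hE0H', hE0c⟩ := mem_filter.1 hE0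
    have hdE0 : 0 < d E0 := (mem_filter.1 hE0H').2
    have hpE0 : 0 < p E0 := by
      rw [hp]
      have : (0 : ℝ) < cnt R H' E0 := by exact_mod_cast hE0c
      positivity
    set x := d E0 / p E0 with hx
    have hx0 : 0 < x := by positivity
    set d' : Finset V → ℝ := fun E => d E - x * p E with hd'
    have hd'0 : ∀ E, 0 ≤ d' E := by
      intro E
      by_cases hE : 0 < cnt R H' E
      · have h3 := hmin E (mem_filter.2 ⟨hcntH E hE, hE⟩)
        have hpE : 0 < p E := by
          rw [hp]
          have : (0 : ℝ) < cnt R H' E := by exact_mod_cast hE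
          positivity
        have h4 : x * p E ≤ d E := by
          have : x ≤ d E / p E := h3
          rwa [le_div_iff₀ hpE] at this
        simp only [hd']
        linarith
      · have : p E = 0 := by
          rw [hp]
          have : cnt R H' E = 0 := by omega
          simp [this]
        simp only [hd', this, mul_zero, sub_zero]
        exact hd E
    have hd'E0 : d' E0 = 0 := by
      simp only [hd', hx]
      rw [div_mul_cancel₀ _ hpE0.ne', sub_self]
    have hlin' : ∀ A ∈ H', ∑ B ∈ nbh H A, ((B.card : ℝ) - 1) * d' B +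
        ((m A : ℝ) + J A * C A) * d' A ≤ m A * (L - x) := by
      intro A hA
      have h3 := hloc A (hsub hA) (mem_filter.1 hA).2
      have h4 := mul_le_mul_of_nonneg_left (hlocp A hA) hx0.le
      have h5 : ∑ B ∈ nbh H A, ((B.card : ℝ) - 1) * d' B =
          ∑ B ∈ nbh H A, ((B.card : ℝ) - 1) * d B -
          x * ∑ B ∈ nbh H A, ((B.card : ℝ) - 1) * p B := by
        rw [mul_sum, ← sum_sub_distrib]
        refine sum_congr rfl fun B _ => ?_
        simp only [hd']
        ring
      rw [h5]
      simp only [hd']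
      nlinarith
    have hLx : 0 ≤ L - x := by
      have h3 := hlin' E0 hE0H'
      have h4 : 0 ≤ ∑ B ∈ nbh H E0, ((B.card : ℝ) - 1) * d' B := by
        refine sum_nonneg fun B hB => ?_
        have h5 : 2 ≤ B.card := h2 B (mem_filter.1 hB).1
        have h6 : (2 : ℝ) ≤ B.card := by exact_mod_cast h5
        exact mul_nonneg (by linarith) (hd'0 B)
      rw [hd'E0, mul_zero, add_zero] at h3
      have h5 : 0 < (m E0 : ℝ) := by
        have h6 := hm E0 (hsub hE0H')
        have h7 := h2 E0 (hsub hE0H')
        have : 0 < m E0 := by rcases h6 with h | h <;> omega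
        exact_mod_cast this
      by_contra hneg
      have : m E0 * (L - x) < 0 := mul_neg_of_pos_of_neg h5 (not_le.1 hneg)
      linarith
    have hsub' : (H.filter fun E => 0 < d' E) ⊆ H'.erase E0 := by
      intro E hE
      rw [mem_filter] at hE
      rw [mem_erase]
      refine ⟨?_, ?_⟩
      · rintro rfl
        exact absurd hd'E0 hE.2.ne'
      · refine mem_filter.2 ⟨hE.1, ?_⟩
        have h3 : d' E ≤ d E := by
          simp only [hd']
          have := mul_nonneg hx0.le (hp0 E)
          linarith
        linarith [hE.2]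
    have hcard : (H.filter fun E => 0 < d' E).card ≤ n := by
      have h3 := card_le_card hsub'
      rw [card_erase_of_mem hE0H'] at h3
      omega
    have hfin := ih d' (L - x) hcard hd'0 hLx (fun A hA hpos => by
      have hA' : A ∈ H' := mem_of_mem_erase (hsub' (mem_filter.2 ⟨hA, hpos⟩))
      exact hlin' A hA')
    -- the average of the weights of the optimal matchings
    have havg : ∑ E ∈ H, w E * p E ≤ W := by
      have h3 : ∑ E ∈ H, w E * (cnt R H' E : ℝ) = ∑ M ∈ optM R H', ∑ E ∈ M, w E := by
        rw [sum_comm' (t' := H) (s' := fun E => (optM R H').filter fun M => E ∈ M)]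
        · refine sum_congr rfl fun E _ => ?_
          rw [sum_const, nsmul_eq_mul, mul_comm]
          rfl
        · intro M E
          rw [mem_filter]
          constructor
          · rintro ⟨hM, hE⟩
            exact ⟨⟨hM, hE⟩, hsub ((mem_optM.1 hM).1 hE)⟩
          · rintro ⟨⟨hM, hE⟩, _⟩
            exact ⟨hM, hE⟩
      have h4 : ∑ M ∈ optM R H', ∑ E ∈ M, w E ≤ ∑ M ∈ optM R H', W :=
        sum_le_sum fun M hM => hW M ((mem_optM.1 hM).1.trans hsub) (mem_optM.1 hM).2.1
      rw [sum_const, nsmul_eq_mul] at h4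
      have h5 : ∑ E ∈ H, w E * p E = (∑ E ∈ H, w E * (cnt R H' E : ℝ)) / N := by
        rw [sum_div]
        refine sum_congr rfl fun E _ => ?_
        rw [hp, mul_div_assoc]
      rw [h5, h3, div_le_iff₀ hNpos, mul_comm W]
      exact h4
    have hsplit : ∑ E ∈ H, w E * d E = ∑ E ∈ H, w E * d' E + x * ∑ E ∈ H, w E * p E := by
      rw [mul_sum, ← sum_add_distrib]
      refine sum_congr rfl fun E _ => ?_
      simp only [hd']
      ring
    rw [hsplit]
    have := mul_le_mul_of_nonneg_left havg hx0.le
    linarith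

end Pool.Agent.Furedi
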