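import Mathlib
import Pool.Agent.Furedi.Main

set_option autoImplicit false

namespace Pool.Agent.Furedi

open Finset

variable {V : Type*} [DecidableEq V]

lemma sum_biUnion_le' {ι κ : Type*} [DecidableEq ι] [DecidableEq κ] (s : Finset ι)
    (t : ι → Finset κ) (f : κ → ℕ) :
    ∑ x ∈ s.biUnion t, f x ≤ ∑ i ∈ s, ∑ x ∈ t i, f x := by
  induction s using Finset.induction_on with
  | empty => simp
  | insert a s ha ih =>
    rw [biUnion_insert, sum_insert ha]
    have := sum_union_inter (s₁ := t a) (s₂ := s.biUnion t) (f := f)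
    omega

lemma sum_nbh_le {H : Finset (Finset V)} {A : Finset V} (hA : A ∈ H)
    {D : ℕ} (hD : ∀ x, ∑ E ∈ H.filter (fun E => x ∈ E), (E.card - 1) ≤ D) :
    ∑ B ∈ nbh H A, (B.card - 1) + A.card * (A.card - 1) ≤ A.card * D := by
  classical
  have h1 : nbh H A ⊆ A.biUnion fun x => (H.filter fun E => x ∈ E).erase A := by
    intro B hB
    obtain ⟨hBH, hBA, hd⟩ := mem_filter.1 hB
    rw [not_disjoint_iff] at hd
    obtain ⟨x, hxB, hxA⟩ := hd
    exact mem_biUnion.2 ⟨x, hxA, mem_erase.2 ⟨hBA, mem_filter.2 ⟨hBH, hxB⟩⟩⟩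
  have h2 : ∀ x ∈ A, ∑ B ∈ (H.filter fun E => x ∈ E).erase A, (B.card - 1) + (A.card - 1) ≤ D := by
    intro x hx
    have h3 := sum_erase_add (H.filter fun E => x ∈ E) (fun B => B.card - 1)
      (mem_filter.2 ⟨hA, hx⟩)
    rw [h3]
    exact hD x
  calc ∑ B ∈ nbh H A, (B.card - 1) + A.card * (A.card - 1)
      ≤ ∑ B ∈ A.biUnion (fun x => (H.filter fun E => x ∈ E).erase A), (B.card - 1)
        + A.card * (A.card - 1) := by
        gcongr
    _ ≤ ∑ x ∈ A, ∑ B ∈ (H.filter fun E => x ∈ E).erase A, (B.card - 1)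
        + A.card * (A.card - 1) := by
        gcongr
        exact sum_biUnion_le' _ _ _
    _ = ∑ x ∈ A, (∑ B ∈ (H.filter fun E => x ∈ E).erase A, (B.card - 1) + (A.card - 1)) := by
        rw [sum_add_distrib, sum_const, smul_eq_mul]
    _ ≤ ∑ x ∈ A, D := sum_le_sum h2
    _ = A.card * D := by rw [sum_const, smul_eq_mul]

/-- The case of edges with at least two vertices, for real (possibly negative) weights. -/
theorem main_ge_two [Fintype V] {H : Finset (Finset V)} (hlin : IsLinear H)
    (h2 : ∀ E ∈ H, 2 ≤ E.card) {D : ℕ}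
    (hD : ∀ x, ∑ E ∈ H.filter (fun E => x ∈ E), (E.card - 1) ≤ D)
    (hcond : ∀ A ∈ H,
      (∀ x ∈ A, (H.filter fun B => B ≠ A ∧ x ∈ B ∧ B.card = A.card).card ≤
        A.card * (A.card - 1)) ∨
      (3 ≤ A.card ∧ ∀ B ∈ H, ¬ Disjoint B A → B.card ≠ 2 ∧ B.card ≠ A.card + 1))
    (w : Finset V → ℝ) (W : ℝ) (hW : ∀ M ⊆ H, IsMatching M → ∑ E ∈ M, w E ≤ W) :
    ∑ E ∈ H, w E ≤ ((D : ℝ) + 1) * W := by
  classical
  let Q : Finset V → Prop := fun A =>
    ∀ x ∈ A, (H.filter fun B => B ≠ A ∧ x ∈ B ∧ B.card = A.card).card ≤ A.card * (A.card - 1)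
  let m : Finset V → ℕ := fun A => if Q A then A.card else A.card + 1
  let J : Finset V → ℕ := fun A => if Q A then 1 else 2
  let C : Finset V → ℕ := fun A => if Q A then A.card * (A.card - 1) else
    A.sup fun x => (H.filter fun B => B ≠ A ∧ x ∈ B ∧ B.card = A.card).card
  have hJ : ∀ A ∈ H, m A + 1 = A.card + J A := by
    intro A _
    simp only [m, J]
    split_ifs <;> omega
  have hm : ∀ A ∈ H, m A = A.card ∨ (m A = A.card + 1 ∧ ∀ B ∈ H, ¬ Disjoint B A →
      B.card ≠ 2 ∧ B.card ≠ A.card + 1) := by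
    intro A hA
    simp only [m]
    by_cases hq : Q A
    · left; rw [if_pos hq]
    · right
      rw [if_neg hq]
      rcases hcond A hA with h | h
      · exact absurd h hq
      · exact ⟨rfl, h.2⟩
  have hC1 : ∀ A ∈ H, A.card * (A.card - 1) ≤ C A := by
    intro A _
    simp only [C]
    by_cases hq : Q A
    · rw [if_pos hq]
    · rw [if_neg hq]
      simp only [Q] at hq
      push Not at hq
      obtain ⟨x, hx, hlt⟩ := hq
      exact hlt.le.trans (le_sup (f := fun x =>
        (H.filter fun B => B ≠ A ∧ x ∈ B ∧ B.card = A.card).card) hx)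
  have hC2 : ∀ A ∈ H, ∀ x ∈ A,
      (H.filter fun B => B ≠ A ∧ x ∈ B ∧ B.card = A.card).card ≤ C A := by
    intro A _ x hx
    simp only [C]
    by_cases hq : Q A
    · rw [if_pos hq]
      exact hq x hx
    · rw [if_neg hq]
      exact le_sup (f := fun x =>
        (H.filter fun B => B ≠ A ∧ x ∈ B ∧ B.card = A.card).card) hx
  have hfin := process hlin h2 m C J hJ hm hC1 hC2 w W hW H.card (fun _ => 1) ((D : ℝ) + 1)
    (card_filter_le _ _) (fun _ => zero_le_one) (by positivity) ?_
  · simpa using hfin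
  intro A hA _
  have hk := h2 A hA
  have hs := sum_nbh_le hA hD
  have hs' : ∑ B ∈ nbh H A, ((B.card : ℝ) - 1) + (A.card : ℝ) * ((A.card : ℝ) - 1) ≤
      A.card * D := by
    have h3 : ((∑ B ∈ nbh H A, (B.card - 1) + A.card * (A.card - 1) : ℕ) : ℝ) ≤
        ((A.card * D : ℕ) : ℝ) := by exact_mod_cast hs
    push_cast at h3
    rw [Nat.cast_sub (by omega), Nat.cast_one] at h3
    refine le_trans (le_of_eq ?_) h3
    congr 1
    refine sum_congr rfl fun B hB => ?_
    have : 2 ≤ B.card := h2 B (mem_filter.1 hB).1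
    rw [Nat.cast_sub (by omega), Nat.cast_one]
  simp only [mul_one]
  by_cases hq : Q A
  · simp only [m, J, C, if_pos hq]
    push_cast
    rw [Nat.cast_sub (by omega), Nat.cast_one]
    nlinarith
  · have h3 : 3 ≤ A.card := by
      rcases hcond A hA with h | h
      · exact absurd h hq
      · exact h.1
    simp only [m, J, C, if_neg hq]
    -- the star bound
    have hsup : 2 * (A.sup fun x =>
        (H.filter fun B => B ≠ A ∧ x ∈ B ∧ B.card = A.card).card) + A.card ≤ D + 1 := by
      have hne : A.Nonempty := card_pos.1 (by omega)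
      obtain ⟨x, hx, hxe⟩ := exists_mem_eq_sup A hne (fun x =>
        (H.filter fun B => B ≠ A ∧ x ∈ B ∧ B.card = A.card).card)
      rw [hxe]
      have h4 : insert A (H.filter fun B => B ≠ A ∧ x ∈ B ∧ B.card = A.card) ⊆
          H.filter fun E => x ∈ E := by
        intro B hB
        rw [mem_insert] at hB
        rcases hB with rfl | hB
        · exact mem_filter.2 ⟨hA, hx⟩
        · have := mem_filter.1 hB
          exact mem_filter.2 ⟨this.1, this.2.2.1⟩
      have h5 := (sum_le_sum_of_subset (f := fun E : Finset V => E.card - 1) h4).trans (hD x)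
      rw [sum_insert (by simp)] at h5
      have h6 : ∑ B ∈ H.filter (fun B => B ≠ A ∧ x ∈ B ∧ B.card = A.card), (B.card - 1) =
          (H.filter fun B => B ≠ A ∧ x ∈ B ∧ B.card = A.card).card * (A.card - 1) := by
        rw [← smul_eq_mul, ← sum_const]
        refine sum_congr rfl fun B hB => ?_
        rw [(mem_filter.1 hB).2.2.2]
      rw [h6] at h5
      have h7 : (H.filter fun B => B ≠ A ∧ x ∈ B ∧ B.card = A.card).card * 2 ≤
          (H.filter fun B => B ≠ A ∧ x ∈ B ∧ B.card = A.card).card * (A.card - 1) :=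
        Nat.mul_le_mul_left _ (by omega)
      omega
    have hsup' : 2 * ((A.sup fun x =>
        (H.filter fun B => B ≠ A ∧ x ∈ B ∧ B.card = A.card).card : ℕ) : ℝ) + A.card ≤
        D + 1 := by exact_mod_cast hsup
    have hk' : (3 : ℝ) ≤ A.card := by exact_mod_cast h3
    push_cast
    nlinarith

lemma deg_le [Fintype V] {H : Finset (Finset V)} (hlin : IsLinear H) {v : V} {D : ℕ}
    (hD : {u : V | u ≠ v ∧ ∃ E ∈ H, u ∈ E ∧ v ∈ E}.ncard ≤ D) :
    ∑ E ∈ H.filter (fun E => v ∈ E), (E.card - 1) ≤ D := by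
  classical
  have hd : (((H.filter fun E => v ∈ E) : Finset (Finset V)) : Set (Finset V)).PairwiseDisjoint
      (fun E => E.erase v) := by
    intro E hE F hF hEF
    have hE' := mem_filter.1 (mem_coe.1 hE)
    have hF' := mem_filter.1 (mem_coe.1 hF)
    rw [Function.onFun, disjoint_left]
    intro y hy1 hy2
    rw [mem_erase] at hy1 hy2
    have h3 := hlin E hE'.1 F hF'.1 hEF
    have h4 : ({v, y} : Finset V) ⊆ E ∩ F := by
      intro z hz
      rw [mem_insert, mem_singleton] at hz
      rcases hz with rfl | rfl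
      · exact mem_inter.2 ⟨hE'.2, hF'.2⟩
      · exact mem_inter.2 ⟨hy1.2, hy2.2⟩
    have h5 := card_le_card h4
    rw [card_pair hy1.1.symm] at h5
    omega
  calc ∑ E ∈ H.filter (fun E => v ∈ E), (E.card - 1)
      = ∑ E ∈ H.filter (fun E => v ∈ E), (E.erase v).card :=
        sum_congr rfl fun E hE => (card_erase_of_mem (mem_filter.1 hE).2).symm
    _ = ((H.filter fun E => v ∈ E).biUnion fun E => E.erase v).card := (card_biUnion hd).symm
    _ ≤ {u : V | u ≠ v ∧ ∃ E ∈ H, u ∈ E ∧ v ∈ E}.ncard := by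
        rw [← Set.ncard_coe_finset]
        apply Set.ncard_le_ncard _ (Set.toFinite _)
        intro u hu
        rw [mem_coe, mem_biUnion] at hu
        obtain ⟨E, hE, hu⟩ := hu
        rw [mem_erase] at hu
        exact ⟨hu.1, E, (mem_filter.1 hE).1, hu.2, (mem_filter.1 hE).2⟩
    _ ≤ D := hD

theorem furedi [Fintype V] (H : Finset (Finset V)) (w : Finset V → ℝ) (D : ℕ)
    (hlin : ∀ E ∈ H, ∀ F ∈ H, E ≠ F → (E ∩ F).card ≤ 1)
    (hw : ∀ E ∈ H, 0 ≤ w E)
    (hD : ∀ v : V, {u : V | u ≠ v ∧ ∃ E ∈ H, u ∈ E ∧ v ∈ E}.ncard ≤ D)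
    (hcond : ∀ A ∈ H, 2 ≤ A.card →
      (∀ x ∈ A, (H.filter fun B => x ∈ B ∧ B.card = A.card).card ≤
        A.card * (A.card - 1) + 1) ∨
      (3 ≤ A.card ∧ ∀ B ∈ H, ¬ Disjoint A B → B.card ≠ 2 ∧ B.card ≠ A.card + 1)) :
    ∃ M : Finset (Finset V), M ⊆ H ∧
      (∀ E ∈ M, ∀ F ∈ M, E ≠ F → Disjoint E F) ∧
      (∑ E ∈ H, w E) / ((D : ℝ) + 1) ≤ ∑ E ∈ M, w E := by
  classical
  set H2 := H.filter fun E => 2 ≤ E.card with hH2
  set Hs := H.filter fun E => ¬ 2 ≤ E.card with hHs
  have hsub2 : H2 ⊆ H := filter_subset _ _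
  set w' : Finset V → ℝ := fun F => w F - ∑ E ∈ Hs.filter (fun E => ¬ Disjoint F E), w E with hw'
  have hdeg : ∀ v : V, ∑ E ∈ H.filter (fun E => v ∈ E), (E.card - 1) ≤ D :=
    fun v => deg_le hlin (hD v)
  -- the best matching
  obtain ⟨M, hM, hmax⟩ := exists_max_image (H2.powerset.filter fun M => IsMatching M)
    (fun M => ∑ E ∈ M, w' E) ⟨∅, by
      rw [mem_filter, mem_powerset]
      exact ⟨empty_subset _, fun E hE => absurd hE (notMem_empty _)⟩⟩
  rw [mem_filter, mem_powerset] at hM
  obtain ⟨hMsub, hMm⟩ := hM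
  have hmain : ∑ E ∈ H2, w' E ≤ ((D : ℝ) + 1) * ∑ E ∈ M, w' E := by
    apply main_ge_two (H := H2) (fun E hE F hF => hlin E (hsub2 hE) F (hsub2 hF))
      (fun E hE => (mem_filter.1 hE).2)
    · intro x
      refine le_trans (sum_le_sum_of_subset ?_) (hdeg x)
      exact filter_subset_filter _ hsub2
    · intro A hA
      rcases hcond A (hsub2 hA) (mem_filter.1 hA).2 with h | h
      · left
        intro x hx
        have h3 := h x hx
        have h4 : insert A (H2.filter fun B => B ≠ A ∧ x ∈ B ∧ B.card = A.card) ⊆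
            H.filter fun B => x ∈ B ∧ B.card = A.card := by
          intro B hB
          rw [mem_insert] at hB
          rcases hB with rfl | hB
          · exact mem_filter.2 ⟨hsub2 hA, hx, rfl⟩
          · have h5 := mem_filter.1 hB
            exact mem_filter.2 ⟨hsub2 h5.1, h5.2.2⟩
        have h5 := card_le_card h4
        rw [card_insert_of_notMem (by simp)] at h5
        omega
      · right
        exact ⟨h.1, fun B hB hd => h.2 B (hsub2 hB) fun h' => hd h'.symm⟩
    · intro M' hM' hMm'
      exact hmax M' (by rw [mem_filter, mem_powerset]; exact ⟨hM', hMm'⟩)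
  -- add the small edges
  set T := Hs.filter fun E => ∀ F ∈ M, Disjoint F E with hT
  have hTs : T ⊆ Hs := filter_subset _ _
  have hMT : Disjoint M T := by
    rw [disjoint_left]
    intro E hE hE'
    exact (mem_filter.1 (hTs hE')).2 (mem_filter.1 (hMsub hE)).2
  refine ⟨M ∪ T, union_subset (hMsub.trans hsub2) (hTs.trans (filter_subset _ _)), ?_, ?_⟩
  · intro E hE F hF hEF
    rw [mem_union] at hE hF
    rcases hE with hE | hE <;> rcases hF with hF | hF
    · exact hMm E hE F hF hEF
    · exact (mem_filter.1 hF).2 E hE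
    · exact ((mem_filter.1 hE).2 F hF).symm
    · have h3 := (mem_filter.1 (hTs hE)).2
      have h4 := (mem_filter.1 (hTs hF)).2
      by_contra hnd
      rw [not_disjoint_iff] at hnd
      obtain ⟨x, hx1, hx2⟩ := hnd
      apply hEF
      have h5 : E = {x} := (eq_of_subset_of_card_le (singleton_subset_iff.2 hx1)
        (by rw [card_singleton]; omega)).symm
      have h6 : F = {x} := (eq_of_subset_of_card_le (singleton_subset_iff.2 hx2)
        (by rw [card_singleton]; omega)).symm
      rw [h5, h6]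
  · -- the weight of `M ∪ T`
    have hcount : ∀ E ∈ Hs, (if ∀ F ∈ M, Disjoint F E then (1 : ℝ) else 0) =
        1 - ((M.filter fun F => ¬ Disjoint F E).card : ℝ) := by
      intro E hE
      have h3 := card_blk_le hMm E
      have h4 := (mem_filter.1 hE).2
      split_ifs with h
      · have : (M.filter fun F => ¬ Disjoint F E) = ∅ :=
          filter_eq_empty_iff.2 fun F hF h' => h' (h F hF)
        rw [this]
        simp
      · have h5 : (M.filter fun F => ¬ Disjoint F E).card = 1 := by
          have h6 : 0 < (M.filter fun F => ¬ Disjoint F E).card := by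
            push Not at h
            obtain ⟨F, hF, hFE⟩ := h
            exact card_pos.2 ⟨F, mem_filter.2 ⟨hF, hFE⟩⟩
          unfold blk at h3
          omega
        rw [h5]
        simp
    have hT' : ∑ E ∈ T, w E = ∑ E ∈ Hs, w E -
        ∑ F ∈ M, ∑ E ∈ Hs.filter (fun E => ¬ Disjoint F E), w E := by
      have h3 : ∑ F ∈ M, ∑ E ∈ Hs.filter (fun E => ¬ Disjoint F E), w E =
          ∑ E ∈ Hs, ((M.filter fun F => ¬ Disjoint F E).card : ℝ) * w E := by
        rw [sum_comm' (t' := Hs) (s' := fun E => M.filter fun F => ¬ Disjoint F E)]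
        · refine sum_congr rfl fun E _ => ?_
          rw [sum_const, nsmul_eq_mul]
        · intro F E
          simp only [mem_filter]
          tauto
      rw [h3, ← sum_sub_distrib, hT, sum_filter]
      refine sum_congr rfl fun E hE => ?_
      have h4 := hcount E hE
      split_ifs at h4 ⊢ with h
      · have h5 : ((M.filter fun F => ¬ Disjoint F E).card : ℝ) = 0 := by linarith
        rw [h5]; ring
      · have h5 : ((M.filter fun F => ¬ Disjoint F E).card : ℝ) = 1 := by linarith
        rw [h5]; ring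
    have hsumM : ∑ E ∈ M ∪ T, w E = ∑ E ∈ M, w' E + ∑ E ∈ Hs, w E := by
      rw [sum_union hMT, hT']
      simp only [hw', sum_sub_distrib]
      ring
    have hH2' : ∑ E ∈ H2, w E - (D : ℝ) * ∑ E ∈ Hs, w E ≤ ∑ E ∈ H2, w' E := by
      simp only [hw', sum_sub_distrib]
      have h3 : ∑ F ∈ H2, ∑ E ∈ Hs.filter (fun E => ¬ Disjoint F E), w E =
          ∑ E ∈ Hs, ((H2.filter fun F => ¬ Disjoint F E).card : ℝ) * w E := by
        rw [sum_comm' (t' := Hs) (s' := fun E => H2.filter fun F => ¬ Disjoint F E)]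
        · refine sum_congr rfl fun E _ => ?_
          rw [sum_const, nsmul_eq_mul]
        · intro F E
          simp only [mem_filter]
          tauto
      have h4 : ∀ E ∈ Hs, ((H2.filter fun F => ¬ Disjoint F E).card : ℝ) * w E ≤ D * w E := by
        intro E hE
        refine mul_le_mul_of_nonneg_right ?_ (hw E (mem_filter.1 hE).1)
        have h5 : (H2.filter fun F => ¬ Disjoint F E).card ≤ D := by
          by_cases hemp : (H2.filter fun F => ¬ Disjoint F E) = ∅
          · rw [hemp]; simp
          · obtain ⟨F, hF⟩ := nonempty_iff_ne_empty.2 hemp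
            have hFd := (mem_filter.1 hF).2
            rw [not_disjoint_iff] at hFd
            obtain ⟨x, hxF, hxE⟩ := hFd
            have h6 := (mem_filter.1 hE).2
            have h7 : E = {x} := (eq_of_subset_of_card_le (singleton_subset_iff.2 hxE)
              (by rw [card_singleton]; omega)).symm
            calc (H2.filter fun F => ¬ Disjoint F E).card
                = ∑ F ∈ H2.filter (fun F => ¬ Disjoint F E), 1 := by simp
              _ ≤ ∑ F ∈ H2.filter (fun F => ¬ Disjoint F E), (F.card - 1) := by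
                  refine sum_le_sum fun F hF => ?_
                  have := (mem_filter.1 (mem_filter.1 hF).1).2
                  omega
              _ ≤ ∑ F ∈ H.filter (fun F => x ∈ F), (F.card - 1) := by
                  refine sum_le_sum_of_subset ?_
                  intro F hF
                  obtain ⟨hF1, hF2⟩ := mem_filter.1 hF
                  rw [h7, disjoint_singleton_right, not_not] at hF2
                  exact mem_filter.2 ⟨hsub2 hF1, hF2⟩
              _ ≤ D := hdeg x
        exact_mod_cast h5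
      have h5 := sum_le_sum h4
      rw [← mul_sum] at h5
      rw [h3]
      linarith
    have hsplit : ∑ E ∈ H, w E = ∑ E ∈ H2, w E + ∑ E ∈ Hs, w E :=
      (sum_filter_add_sum_filter_not H (fun E => 2 ≤ E.card) w).symm
    rw [hsumM, div_le_iff₀ (by positivity), hsplit]
    nlinarith

end Pool.Agent.Furedi
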